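import Pool.Agent.Helper19.PM.Goals

/-!
# MP_a41896_nt, project P1M, packet ZEW: the zero estimate with `Q ≥ q_0`

Adapted from `Pool/Agent/Helper81/VN/ZEB.lean`.
-/

set_option autoImplicit false

open MvPolynomial

namespace Pool.Agent.Helper26.PM

open WeierstrassCurve Height
open Pool.Agent.Helper29.BL Pool.Agent.Helper92.Ru Pool.Agent.Helper42.SG
open Pool.Agent.Helper68.VN hiding xs Good nz

lemma Bf_cn {K : Type} [Field K] {A : Type} [CommRing A] [Algebra K A] {σ : Type}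
    (W : σ → Affine K) (x y : σ → K) (h : ∀ i, y i ^ 2 = Bf (W i) (x i)) (i : σ) :
    cn A y i ^ 2 = Bf (mapS A W i) (cn A x i) := by
  have h1 := congrArg (algebraMap K A) (h i)
  rw [map_pow] at h1
  unfold cn mapS
  rw [h1]
  simp only [Bf, WeierstrassCurve.map_b₂, WeierstrassCurve.map_b₄, WeierstrassCurve.map_b₆,
    map_add, map_mul, map_pow, map_ofNat]

lemma LowS_mono {K : Type} [Field K] [NumberField K] {σ : Type} {D : ℕ} {A B : ℝ}
    {x : σ → K} (h : LowS D A x) (hAB : A ≤ B) : LowS D B x := by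
  obtain ⟨F, h1, h2, h3, h4⟩ := h
  exact ⟨F, h1, h2, h3, h4.trans hAB⟩

lemma IndGe_mono {k : Type} [Field k] {σ : Type} [Fintype σ] {r : σ → ℕ} {ξ : σ → k} {θ θ' : ℝ}
    {p : MvPolynomial σ k} (h : IndGe r ξ θ p) (hθ : θ' ≤ θ) : IndGe r ξ θ' p :=
  fun e he => hθ.trans (h e he)

/-- **ZEW**. -/
theorem t_ZEW (hNQX : NQX) (hQIXB : QIXB) (hWRZ : WRZ) (hBRU : BRU) (hROWB : ROWB) :
    Pool.Agent.Helper19.PM.ZEW := by
  classical
  intro K _ _ σ _ _ W hW n M δ hn hM hδ CA hCA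
  obtain ⟨C1, hC1, hN⟩ := hNQX K σ W hW n M δ hn hM hδ
  obtain ⟨s0, C2, hs0, hC2, hZ⟩ := hWRZ K (Fin n × σ) σ (nsg σ n * (2 * n * M + δ))
  have hnsg : 1 ≤ nsg σ n := Nat.one_le_two_pow
  obtain ⟨w0, hw0⟩ : ∃ w0 : ℕ, w0 = s0 * (nsg σ n * (2 * M + 1)) := ⟨_, rfl⟩
  have hw1 : 1 ≤ w0 := by
    rw [hw0]
    exact Nat.one_le_iff_ne_zero.mpr (Nat.mul_ne_zero (by omega)
      (Nat.mul_ne_zero (by omega) (by omega)))
  have hw1' : (1 : ℝ) ≤ w0 := by exact_mod_cast hw1
  obtain ⟨D', Kc, ω, hKc, hω, hω1, hR⟩ := hBRU K σ n (1 / (2 * w0)) (by positivity)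
  obtain ⟨CH, hCH⟩ : ∃ CH : ℝ, CH = s0 * (C1 * (n + CA) + C2 * (nsg σ n * (2 * M + 1))) + 1 :=
    ⟨_, rfl⟩
  have hCH1 : 1 ≤ CH := by
    rw [hCH]
    have : 0 ≤ (s0 : ℝ) * (C1 * (n + CA) + C2 * (nsg σ n * (2 * M + 1))) := by positivity
    linarith
  obtain ⟨K1, hK1d⟩ : ∃ K1 : ℝ, K1 = max (2 * (s0 : ℝ)) (1 / ω) := ⟨_, rfl⟩
  have hK1a : 2 * (s0 : ℝ) ≤ K1 := hK1d ▸ le_max_left _ _
  have hK1b : 1 / ω ≤ K1 := hK1d ▸ le_max_right _ _
  refine ⟨D', max (Kc * CH) (Module.finrank ℚ K * CA), K1,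
    le_max_of_le_left (by positivity), ?_⟩
  intro e Q c ξ ψ x0 ψ0 X Ψ hc hint hhouse hTay hψ hψ0 hQ hlac hbig
  have hK1 : (1 : ℝ) ≤ K1 := by
    refine le_trans ?_ hK1b
    rw [le_div_iff₀ hω]
    linarith
  have hq0 : ∀ j, (4 : ℝ) ^ e j ≤ 4 ^ e ⟨0, hn⟩ := by
    intro j
    rcases Nat.eq_zero_or_pos j.val with h | h
    · have : j = ⟨0, hn⟩ := Fin.ext h
      rw [this]
    · have h1 := hlac ⟨0, hn⟩ j h
      have h2 : (0 : ℝ) < 4 ^ e j := by positivity
      nlinarith
  have hpos : (0 : ℝ) < 4 ^ e ⟨0, hn⟩ := by positivity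
  have hq1 : (1 : ℝ) ≤ 4 ^ e ⟨0, hn⟩ := one_le_pow₀ (by norm_num)
  have hQ0 : (4 : ℝ) ^ e ⟨0, hn⟩ ≤ Q := hQ ⟨0, hn⟩
  have hQpos : 0 < Q := lt_of_lt_of_le hpos hQ0
  obtain ⟨R, hRd, hRH, hRne, hRf⟩ := hN e c (CA * Q) (by positivity) hint hhouse
  by_cases hs : spc x0 R = 0
  · right
    left
    have h1 : ∀ α : ∀ j : Fin n, Ax σ M (e j),
        ∑ β : σ → Fin δ, c (α, β) * ∏ i, x0 i ^ (β i).val = 0 := by
      intro α
      by_contra hα
      exact hRne x0 ⟨α, hα⟩ hs
    refine LowS_mono (hROWB K σ n M δ e c (CA * Q) x0 hc (by positivity) hint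
      hhouse h1) ?_
    rw [← mul_assoc]
    exact mul_le_mul_of_nonneg_right (le_max_right _ _) hQpos.le
  · by_cases hvan : ∃ α : Fin n × σ →₀ ℕ, wt (fun h : Fin n × σ => 4 ^ e h.1) α < 1 ∧
          MvPowerSeries.coeff α (PT W n M δ e c (fun _ _ => false) X Ψ x0 ψ0) ≠ 0
    · exact Or.inr (Or.inr hvan)
    · left
      push Not at hvan
      have hOn : OnB W X Ψ (cn _ x0) (cn (MvPowerSeries (Fin n × σ) K) ψ0) :=
        ⟨hTay.on, Bf_cn W x0 ψ0 hψ0⟩
      obtain ⟨g, hg⟩ := hRf (MvPowerSeries (Fin n × σ) K) X Ψ _ _ hOn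
      have hcomp : aeval (fun h : Fin n × σ => X h.1 h.2) (spc x0 R) =
          aeval (Sum.elim (fun h : Fin n × σ => X h.1 h.2)
            (cn (MvPowerSeries (Fin n × σ) K) x0)) R := by
        have h2 : (aeval (fun h : Fin n × σ => X h.1 h.2)).comp (spc x0) =
            (aeval (Sum.elim (fun h : Fin n × σ => X h.1 h.2)
              (cn (MvPowerSeries (Fin n × σ) K) x0)) :
              MvPolynomial ((Fin n × σ) ⊕ σ) K →ₐ[K] MvPowerSeries (Fin n × σ) K) := by
          apply MvPolynomial.algHom_ext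
          rintro (h | i)
          · simp [spc]
          · simp [spc, cn]
        exact DFunLike.congr_fun h2 R
      have hI : IndGe (fun h : Fin n × σ => 4 ^ e h.1) (fun h => ξ h.1 h.2) 1 (spc x0 R) :=
        hQIXB K σ W n ξ ψ X Ψ (spc x0 R)
          (PT W n M δ e c (fun _ _ => false) X Ψ x0 ψ0) g (fun h => 4 ^ e h.1) 1 hTay hψ
          (fun h => Nat.one_le_pow _ _ (by norm_num)) (hcomp.trans hg) hvan
      have hq0' : ∀ j, 4 ^ e j ≤ 4 ^ e ⟨0, hn⟩ := by
        intro j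
        exact_mod_cast hq0 j
      obtain ⟨V, hV, hVd, hVH, hVI⟩ := hZ R x0 (nsg σ n * ((2 * M + 1) * 4 ^ e ⟨0, hn⟩))
        (fun h => 4 ^ e h.1) (fun h => ξ h.1 h.2) 1 K1
        (Nat.one_le_iff_ne_zero.mpr (Nat.mul_ne_zero (by omega)
          (Nat.mul_ne_zero (by omega) (by positivity))))
        (fun h => (hRd _).trans (Nat.mul_le_mul_left _ (Nat.mul_le_mul_left _ (hq0' _))))
        (fun t => hRd (Sum.inr t)) (by linarith) (fun h => by
          have := hbig h.1
          push_cast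
          exact this) hs hI
      have hsq : (sqB e : ℝ) ≤ n * Q := by
        unfold sqB
        push_cast
        refine (Finset.sum_le_sum fun j _ => hQ j).trans (le_of_eq ?_)
        rw [Finset.sum_const, Finset.card_univ, Fintype.card_fin, nsmul_eq_mul]
      have hs0' : (1 : ℝ) ≤ s0 := by exact_mod_cast hs0
      obtain ⟨j, f, hf, hfd, hfe, hfh⟩ := hR (fun j => 4 ^ e j) ξ (CH * Q) w0 V
        (by
          intro j
          refine ⟨Nat.one_le_pow _ _ (by norm_num), ?_⟩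
          push_cast
          refine (hQ j).trans ?_
          nlinarith)
        (by
          intro j j' hjj
          have h1 := hlac j j' hjj
          have h2 : 1 ≤ ω * K1 := by
            have h3 : ω * (1 / ω) ≤ ω * K1 := mul_le_mul_of_nonneg_left hK1b hω.le
            rwa [mul_one_div_cancel hω.ne'] at h3
          have h4 : (0 : ℝ) < 4 ^ e j' := by positivity
          push_cast
          calc (4 : ℝ) ^ e j' = 1 * 4 ^ e j' := (one_mul _).symm
            _ ≤ (ω * K1) * 4 ^ e j' := mul_le_mul_of_nonneg_right h2 h4.le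
            _ = ω * (K1 * 4 ^ e j') := by ring
            _ ≤ ω * 4 ^ e j := mul_le_mul_of_nonneg_left h1 hω.le)
        hV (by linarith) (by
          intro h
          have h1 : V.degreeOf h ≤ 4 ^ e h.1 * w0 := by
            refine (hVd h).trans ?_
            refine (Nat.mul_le_mul_left _ (hRd _)).trans (le_of_eq ?_)
            rw [hw0]
            simp only [ddB, Sum.elim_inl]
            ring
          exact_mod_cast h1) (by
          refine hVH.trans ?_
          have h1 : Real.log (PH R) + C2 * ((nsg σ n * ((2 * M + 1) * 4 ^ e ⟨0, hn⟩) : ℕ) : ℝ) ≤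
              (C1 * (n + CA) + C2 * (nsg σ n * (2 * M + 1))) * Q := by
            have h2 : C1 * (sqB e + CA * Q) ≤ C1 * (n * Q + CA * Q) :=
              mul_le_mul_of_nonneg_left (by linarith) hC1
            have h3 := hRH.trans h2
            have h4 : C2 * (nsg σ n * (2 * M + 1)) * 4 ^ e ⟨0, hn⟩ ≤
                C2 * (nsg σ n * (2 * M + 1)) * Q :=
              mul_le_mul_of_nonneg_left hQ0 (by positivity)
            push_cast
            linarith [h3, h4]
          calc (s0 : ℝ) * (Real.log (PH R) +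
                C2 * ((nsg σ n * ((2 * M + 1) * 4 ^ e ⟨0, hn⟩) : ℕ) : ℝ))
              ≤ s0 * ((C1 * (n + CA) + C2 * (nsg σ n * (2 * M + 1))) * Q) :=
                mul_le_mul_of_nonneg_left h1 (by positivity)
            _ = (CH - 1) * Q := by rw [hCH]; ring
            _ ≤ CH * Q := by nlinarith
            _ = CH * Q * 1 := (mul_one _).symm
            _ ≤ CH * Q * w0 :=
                mul_le_mul_of_nonneg_left hw1' (by positivity)) (by
          apply IndGe_mono hVI
          have h1 : (s0 : ℝ) / K1 ≤ 1 / 2 := by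
            rw [div_le_div_iff₀ (by linarith) (by norm_num)]
            linarith
          have h2 : 1 / (2 * (w0 : ℝ)) * w0 = 1 / 2 := by
            have : (w0 : ℝ) ≠ 0 := by linarith
            field_simp
          rw [h2]
          linarith)
      refine ⟨j, f, hf, hfd, hfe, ?_⟩
      have h1 : (0 : ℝ) < 4 ^ e j := by positivity
      push_cast at hfh
      have h2 : Real.log (PH f) ≤ Kc * CH * (Q / 4 ^ e j) := by
        rw [← mul_div_assoc, le_div_iff₀ h1]
        linarith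
      exact h2.trans (mul_le_mul_of_nonneg_right (le_max_left _ _) (by positivity))

end Pool.Agent.Helper26.PM
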